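import Mathlib

set_option autoImplicit false

open Set Topology

noncomputable section

namespace Q172.Exc

/-- spreading of base four digits, first coordinate -/
def X : ℕ → ℕ
  | 0 => 0
  | (n + 1) => 4 * X ((n + 1) / 4) + 3 * ((n + 1) % 4 % 2)
decreasing_by exact Nat.div_lt_self (Nat.succ_pos n) (by norm_num)

/-- spreading of base four digits, second coordinate -/
def Y : ℕ → ℕ
  | 0 => 0
  | (n + 1) => 4 * Y ((n + 1) / 4) + 3 * ((n + 1) % 4 / 2)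
decreasing_by exact Nat.div_lt_self (Nat.succ_pos n) (by norm_num)

theorem X_rec (m : ℕ) : X m = 4 * X (m / 4) + 3 * (m % 4 % 2) := by
  cases m with
  | zero => simp [X]
  | succ n => rw [X]

theorem Y_rec (m : ℕ) : Y m = 4 * Y (m / 4) + 3 * (m % 4 / 2) := by
  cases m with
  | zero => simp [Y]
  | succ n => rw [Y]

theorem X_add (m d : ℕ) (hd : d < 4) : X (4 * m + d) = 4 * X m + 3 * (d % 2) := by
  rw [X_rec]
  have h1 : (4 * m + d) / 4 = m := by omega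
  have h2 : (4 * m + d) % 4 = d := by omega
  rw [h1, h2]

theorem Y_add (m d : ℕ) (hd : d < 4) : Y (4 * m + d) = 4 * Y m + 3 * (d / 2) := by
  rw [Y_rec]
  have h1 : (4 * m + d) / 4 = m := by omega
  have h2 : (4 * m + d) % 4 = d := by omega
  rw [h1, h2]

theorem XY (m : ℕ) : X m + 2 * Y m = 3 * m := by
  induction m using Nat.strong_induction_on with
  | _ m ih =>
    rcases Nat.eq_zero_or_pos m with h | h
    · subst h; simp [X, Y]
    · have := ih (m / 4) (Nat.div_lt_self h (by norm_num))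
      rw [X_rec, Y_rec]
      have h1 : m = 4 * (m / 4) + m % 4 := by omega
      have h2 : m % 4 = 2 * (m % 4 / 2) + m % 4 % 2 := by omega
      omega

theorem XYr (m : ℕ) : (X m : ℝ) + 2 * Y m = 3 * m := by exact_mod_cast XY m

/-- the linear form -/
def F (v : ℝ × ℝ) : ℝ := (v.1 + 2 * v.2) / 3

theorem F_cont : Continuous F := by unfold F; fun_prop

/-- the boxes of level `n` -/
def box (n m : ℕ) : Set (ℝ × ℝ) :=
  Icc ((X m : ℝ) / 4 ^ n) (((X m : ℝ) + 1) / 4 ^ n) ×ˢ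
    Icc ((Y m : ℝ) / 4 ^ n) (((Y m : ℝ) + 1) / 4 ^ n)

theorem box_compact (n m : ℕ) : IsCompact (box n m) := isCompact_Icc.prod isCompact_Icc

theorem box_convex (n m : ℕ) : Convex ℝ (box n m) := (convex_Icc _ _).prod (convex_Icc _ _)

theorem F_box {n m : ℕ} {v : ℝ × ℝ} (hv : v ∈ box n m) :
    (m : ℝ) ≤ F v * 4 ^ n ∧ F v * 4 ^ n ≤ m + 1 := by
  obtain ⟨⟨h1, h2⟩, ⟨h3, h4⟩⟩ := hv
  have hp : (0 : ℝ) < 4 ^ n := by positivity
  rw [div_le_iff₀ hp] at h1 h3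
  rw [le_div_iff₀ hp] at h2 h4
  have := XYr m
  unfold F
  constructor <;> nlinarith

theorem box_sub (n m : ℕ) : box (n + 1) m ⊆ box n (m / 4) := by
  rintro v ⟨⟨h1, h2⟩, ⟨h3, h4⟩⟩
  have hp : (0 : ℝ) < 4 ^ n := by positivity
  have hp' : (0 : ℝ) < 4 ^ (n + 1) := by positivity
  rw [div_le_iff₀ hp', pow_succ] at h1 h3
  rw [le_div_iff₀ hp', pow_succ] at h2 h4
  have e1 : (X m : ℝ) = 4 * X (m / 4) + 3 * (m % 4 % 2 : ℕ) := by exact_mod_cast X_rec m
  have e2 : (Y m : ℝ) = 4 * Y (m / 4) + 3 * (m % 4 / 2 : ℕ) := by exact_mod_cast Y_rec m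
  have d1 : ((m % 4 % 2 : ℕ) : ℝ) ≤ 1 := by
    have : m % 4 % 2 ≤ 1 := by omega
    exact_mod_cast this
  have d2 : ((m % 4 / 2 : ℕ) : ℝ) ≤ 1 := by
    have : m % 4 / 2 ≤ 1 := by omega
    exact_mod_cast this
  have d3 : (0 : ℝ) ≤ ((m % 4 % 2 : ℕ) : ℝ) := Nat.cast_nonneg _
  have d4 : (0 : ℝ) ≤ ((m % 4 / 2 : ℕ) : ℝ) := Nat.cast_nonneg _
  refine ⟨⟨?_, ?_⟩, ⟨?_, ?_⟩⟩
  · rw [div_le_iff₀ hp]; nlinarith
  · rw [le_div_iff₀ hp]; nlinarith
  · rw [div_le_iff₀ hp]; nlinarith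
  · rw [le_div_iff₀ hp]; nlinarith

def Zn (n : ℕ) : Set (ℝ × ℝ) := ⋃ m ∈ Iio (4 ^ n), box n m

/-- the planar Cantor set -/
def Z : Set (ℝ × ℝ) := ⋂ n, Zn n

theorem mem_Zn {n : ℕ} {v : ℝ × ℝ} : v ∈ Zn n ↔ ∃ m < 4 ^ n, v ∈ box n m := by
  unfold Zn
  simp only [mem_iUnion, mem_Iio, exists_prop]

theorem Zn_closed (n : ℕ) : IsClosed (Zn n) :=
  ((finite_Iio (4 ^ n)).isCompact_biUnion fun m _ => box_compact n m).isClosed

theorem Zn_succ (n : ℕ) : Zn (n + 1) ⊆ Zn n := by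
  intro v hv
  obtain ⟨m, hm, hv⟩ := mem_Zn.1 hv
  refine mem_Zn.2 ⟨m / 4, ?_, box_sub n m hv⟩
  rw [pow_succ] at hm
  omega

theorem Zn_anti {m n : ℕ} (h : m ≤ n) : Zn n ⊆ Zn m := by
  induction n, h using Nat.le_induction with
  | base => exact Subset.rfl
  | succ n _ ih => exact (Zn_succ n).trans ih

def ptp (n M : ℕ) : ℝ × ℝ := ((X M : ℝ) / 4 ^ n, (Y M : ℝ) / 4 ^ n)

def ptm (n M : ℕ) : ℝ × ℝ := (((X (M - 1) : ℝ) + 1) / 4 ^ n, ((Y (M - 1) : ℝ) + 1) / 4 ^ n)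

theorem ptp_succ (n M : ℕ) : ptp (n + 1) (4 * M) = ptp n M := by
  unfold ptp
  have h1 := X_add M 0 (by norm_num)
  have h2 := Y_add M 0 (by norm_num)
  rw [add_zero] at h1 h2
  rw [h1, h2, pow_succ]
  push_cast
  apply Prod.ext
  · show (_ : ℝ) = _
    field_simp
    ring
  · show (_ : ℝ) = _
    field_simp
    ring

theorem ptm_succ (n M : ℕ) (hM : 1 ≤ M) : ptm (n + 1) (4 * M) = ptm n M := by
  unfold ptm
  have e : 4 * M - 1 = 4 * (M - 1) + 3 := by omega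
  have h1 := X_add (M - 1) 3 (by norm_num)
  have h2 := Y_add (M - 1) 3 (by norm_num)
  rw [e, h1, h2, pow_succ]
  push_cast
  apply Prod.ext
  · show (_ : ℝ) = _
    field_simp
    ring
  · show (_ : ℝ) = _
    field_simp
    ring

theorem ptp_mem_box (n M : ℕ) : ptp n M ∈ box n M := by
  have hp : (0 : ℝ) < 4 ^ n := by positivity
  refine ⟨⟨le_rfl, ?_⟩, ⟨le_rfl, ?_⟩⟩
  · exact div_le_div_of_nonneg_right (by linarith) hp.le
  · exact div_le_div_of_nonneg_right (by linarith) hp.le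

theorem ptm_mem_box (n M : ℕ) : ptm n M ∈ box n (M - 1) := by
  have hp : (0 : ℝ) < 4 ^ n := by positivity
  refine ⟨⟨?_, le_rfl⟩, ⟨?_, le_rfl⟩⟩
  · exact div_le_div_of_nonneg_right (by linarith) hp.le
  · exact div_le_div_of_nonneg_right (by linarith) hp.le

theorem ptp_mem {n M : ℕ} (hM : M < 4 ^ n) : ptp n M ∈ Z := by
  have key : ∀ i, ptp n M = ptp (n + i) (4 ^ i * M) := by
    intro i
    induction i with
    | zero => simp
    | succ i ih => rw [ih, ← add_assoc, pow_succ', mul_assoc, ptp_succ]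
  apply mem_iInter.2
  intro k
  apply Zn_anti (show k ≤ n + k by omega)
  rw [key k]
  refine mem_Zn.2 ⟨_, ?_, ptp_mem_box _ _⟩
  rw [pow_add, mul_comm]
  exact Nat.mul_lt_mul_of_pos_right hM (by positivity)

theorem ptm_mem {n M : ℕ} (h1 : 1 ≤ M) (hM : M ≤ 4 ^ n) : ptm n M ∈ Z := by
  have key : ∀ i, ptm n M = ptm (n + i) (4 ^ i * M) := by
    intro i
    induction i with
    | zero => simp
    | succ i ih =>
      rw [ih, ← add_assoc, pow_succ', mul_assoc, ptm_succ]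
      exact Nat.mul_pos (by positivity) h1
  apply mem_iInter.2
  intro k
  apply Zn_anti (show k ≤ n + k by omega)
  rw [key k]
  refine mem_Zn.2 ⟨_, ?_, ptm_mem_box _ _⟩
  have h2 : 4 ^ k * M ≤ 4 ^ (n + k) := by
    rw [pow_add, mul_comm]
    exact Nat.mul_le_mul_right _ hM
  have h3 : 0 < 4 ^ k * M := Nat.mul_pos (by positivity) h1
  omega

theorem F_ptp (n M : ℕ) : F (ptp n M) = M / 4 ^ n := by
  unfold F ptp
  have := XYr M
  have hp : (0 : ℝ) < 4 ^ n := by positivity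
  simp only
  field_simp
  linarith

theorem F_ptm {n M : ℕ} (h : 1 ≤ M) : F (ptm n M) = M / 4 ^ n := by
  unfold F ptm
  have h1 := XYr (M - 1)
  have hp : (0 : ℝ) < 4 ^ n := by positivity
  rw [Nat.cast_sub h] at h1
  simp only
  field_simp
  push_cast at h1
  linarith

theorem eq_ptp {n M : ℕ} {v : ℝ × ℝ} (hv : v ∈ box n M) (hF : F v * 4 ^ n = M) : v = ptp n M := by
  obtain ⟨⟨h1, h2⟩, ⟨h3, h4⟩⟩ := hv
  have hp : (0 : ℝ) < 4 ^ n := by positivity
  rw [div_le_iff₀ hp] at h1 h3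
  have := XYr M
  unfold F at hF
  apply Prod.ext
  · show v.1 = X M / 4 ^ n
    rw [eq_div_iff hp.ne']
    nlinarith
  · show v.2 = Y M / 4 ^ n
    rw [eq_div_iff hp.ne']
    nlinarith

theorem eq_ptm {n M : ℕ} (h : 1 ≤ M) {v : ℝ × ℝ} (hv : v ∈ box n (M - 1))
    (hF : F v * 4 ^ n = M) : v = ptm n M := by
  obtain ⟨⟨h1, h2⟩, ⟨h3, h4⟩⟩ := hv
  have hp : (0 : ℝ) < 4 ^ n := by positivity
  rw [le_div_iff₀ hp] at h2 h4
  have h5 := XYr (M - 1)
  rw [Nat.cast_sub h] at h5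
  push_cast at h5
  unfold F at hF
  apply Prod.ext
  · show v.1 = (X (M - 1) + 1) / 4 ^ n
    rw [eq_div_iff hp.ne']
    nlinarith
  · show v.2 = (Y (M - 1) + 1) / 4 ^ n
    rw [eq_div_iff hp.ne']
    nlinarith

theorem reduce (n : ℕ) : ∀ M : ℕ, 1 ≤ M → M < 4 ^ n → ∃ n' M' : ℕ, 1 ≤ M' ∧ M' < 4 ^ n' ∧
    M' % 4 ≠ 0 ∧ ptp n M = ptp n' M' ∧ ptm n M = ptm n' M' := by
  induction n with
  | zero => intro M h1 h2; simp at h2; omega
  | succ n ih =>
    intro M h1 h2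
    by_cases h : M % 4 = 0
    · have e : M = 4 * (M / 4) := by omega
      have h3 : 1 ≤ M / 4 := by omega
      have h4 : M / 4 < 4 ^ n := by rw [pow_succ] at h2; omega
      obtain ⟨n', M', a, b, c, d, f⟩ := ih (M / 4) h3 h4
      refine ⟨n', M', a, b, c, ?_, ?_⟩
      · rw [e, ptp_succ]; exact d
      · rw [e, ptm_succ n (M / 4) h3]; exact f
    · exact ⟨n + 1, M, h1, h2, h, rfl, rfl⟩

/-- Two points of the Cantor set with the same value of `F` are the two ends of a gap. -/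
theorem gap_of {z z' : ℝ × ℝ} (hz : z ∈ Z) (hz' : z' ∈ Z) (hF : F z = F z') (hne : z ≠ z') :
    ∃ n M : ℕ, 1 ≤ M ∧ M < 4 ^ n ∧ M % 4 ≠ 0 ∧
      ((z = ptp n M ∧ z' = ptm n M) ∨ (z = ptm n M ∧ z' = ptp n M)) := by
  have hex : ∃ n m m' : ℕ, m < 4 ^ n ∧ m' < 4 ^ n ∧ z ∈ box n m ∧ z' ∈ box n m' ∧ m ≠ m' := by
    by_contra hcon
    push Not at hcon
    apply hne
    have key : ∀ n : ℕ, |z.1 - z'.1| ≤ 1 / 4 ^ n ∧ |z.2 - z'.2| ≤ 1 / 4 ^ n := by
      intro n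
      obtain ⟨m, hm, hzm⟩ := mem_Zn.1 (mem_iInter.1 hz n)
      obtain ⟨m', hm', hzm'⟩ := mem_Zn.1 (mem_iInter.1 hz' n)
      have h := hcon n m m' hm hm' hzm hzm'
      subst h
      obtain ⟨⟨h1, h2⟩, ⟨h3, h4⟩⟩ := hzm
      obtain ⟨⟨h1', h2'⟩, ⟨h3', h4'⟩⟩ := hzm'
      rw [add_div] at h2 h4 h2' h4'
      constructor
      · rw [abs_le]; constructor <;> linarith
      · rw [abs_le]; constructor <;> linarith
    have hz0 : ∀ r : ℝ, (∀ n : ℕ, |r| ≤ 1 / 4 ^ n) → r = 0 := by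
      intro r hr
      have ht : Filter.Tendsto (fun n : ℕ => (1 : ℝ) / 4 ^ n) Filter.atTop (𝓝 0) := by
        have := tendsto_pow_atTop_nhds_zero_of_lt_one (r := (1 / 4 : ℝ)) (by norm_num) (by norm_num)
        refine this.congr fun n => ?_
        rw [one_div_pow]
      have : |r| ≤ 0 := ge_of_tendsto' ht hr
      exact abs_nonpos_iff.1 this
    apply Prod.ext
    · exact sub_eq_zero.1 (hz0 _ fun n => (key n).1)
    · exact sub_eq_zero.1 (hz0 _ fun n => (key n).2)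
  obtain ⟨n, m, m', hm, hm', hzm, hzm', hmm⟩ := hex
  obtain ⟨a1, a2⟩ := F_box hzm
  obtain ⟨b1, b2⟩ := F_box hzm'
  rw [← hF] at b1 b2
  rcases lt_or_gt_of_ne hmm with h | h
  · have h1 : (m : ℝ) + 1 ≤ m' := by exact_mod_cast h
    have h2 : F z * 4 ^ n = m' := by linarith
    have h3 : (m : ℝ) + 1 = m' := by linarith
    have h4 : m + 1 = m' := by exact_mod_cast h3
    obtain ⟨n', M', c1, c2, c3, c4, c5⟩ := reduce n m' (by omega) hm'
    refine ⟨n', M', c1, c2, c3, Or.inr ⟨?_, ?_⟩⟩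
    · rw [← c5]
      apply eq_ptm (by omega) _ h2
      have : m' - 1 = m := by omega
      rwa [this]
    · rw [← c4]
      exact eq_ptp hzm' (by rw [← hF]; exact h2)
  · have h1 : (m' : ℝ) + 1 ≤ m := by exact_mod_cast h
    have h2 : F z * 4 ^ n = m := by linarith
    have h3 : (m' : ℝ) + 1 = m := by linarith
    have h4 : m' + 1 = m := by exact_mod_cast h3
    obtain ⟨n', M', c1, c2, c3, c4, c5⟩ := reduce n m (by omega) hm
    refine ⟨n', M', c1, c2, c3, Or.inl ⟨?_, ?_⟩⟩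
    · rw [← c4]
      exact eq_ptp hzm h2
    · rw [← c5]
      apply eq_ptm (by omega) _ (by rw [← hF]; exact h2)
      have : m - 1 = m' := by omega
      rwa [this]

/-- heights of the bridges -/
def ty (M : ℕ) : ℝ := if M % 4 = 2 then 1 else 0

theorem ty_mem (M : ℕ) : ty M ∈ Icc (0 : ℝ) 1 := by
  unfold ty
  split_ifs <;> constructor <;> norm_num

def Seg (n M : ℕ) : Set (ℝ × ℝ) := segment ℝ (ptp n M) (ptm n M)

def good (n M : ℕ) : Prop := 1 ≤ M ∧ M < 4 ^ n ∧ M % 4 ≠ 0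

def bridge (n M : ℕ) : Set ((ℝ × ℝ) × ℝ) := Seg n M ×ˢ {ty M}

/-- the continuum -/
def K3 : Set ((ℝ × ℝ) × ℝ) :=
  (Z ×ˢ Icc (0 : ℝ) 1) ∪ ⋃ n, ⋃ M ∈ {M | good n M}, bridge n M

theorem Seg_compact (n M : ℕ) : IsCompact (Seg n M) := by
  unfold Seg
  rw [segment_eq_image]
  exact isCompact_Icc.image (by fun_prop)

theorem good_pos {n M : ℕ} (h : good n M) : 1 ≤ n := by
  rcases Nat.eq_zero_or_pos n with h0 | h0
  · subst h0
    have := h.1
    have := h.2.1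
    simp at this
    omega
  · exact h0

theorem Seg_sub {n M : ℕ} (h : good (n + 1) M) : Seg (n + 1) M ⊆ box n (M / 4) := by
  have h1 : ptp (n + 1) M ∈ box n (M / 4) := box_sub n M (ptp_mem_box _ _)
  have h2 : ptm (n + 1) M ∈ box n (M / 4) := by
    have := box_sub n (M - 1) (ptm_mem_box (n + 1) M)
    have e : (M - 1) / 4 = M / 4 := by
      have := h.2.2
      have := h.1
      omega
    rwa [e] at this
  exact (box_convex n (M / 4)).segment_subset h1 h2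

theorem F_Seg {n M : ℕ} (h : 1 ≤ M) {v : ℝ × ℝ} (hv : v ∈ Seg n M) : F v = M / 4 ^ n := by
  obtain ⟨a, b, _, _, hab, rfl⟩ := hv
  have h1 := F_ptp n M
  have h2 := F_ptm (n := n) h
  have e : F (a • ptp n M + b • ptm n M) = a * F (ptp n M) + b * F (ptm n M) := by
    unfold F
    simp only [Prod.fst_add, Prod.snd_add, Prod.smul_fst, Prod.smul_snd, smul_eq_mul]
    ring
  rw [e, h1, h2, ← add_mul, hab, one_mul]

theorem K3_closed : IsClosed K3 := by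
  have : K3 = ⋂ N, ((Zn N ×ˢ Icc (0 : ℝ) 1) ∪ ⋃ n ∈ Iic N, ⋃ M ∈ {M | good n M}, bridge n M) := by
    ext p
    constructor
    · rintro (h | h)
      · exact mem_iInter.2 fun N => Or.inl ⟨mem_iInter.1 h.1 N, h.2⟩
      · simp only [mem_iUnion, exists_prop] at h
        obtain ⟨n, M, hM, hp⟩ := h
        refine mem_iInter.2 fun N => ?_
        rcases Nat.lt_or_ge N n with hN | hN
        · left
          obtain ⟨n', rfl⟩ : ∃ n', n = n' + 1 := ⟨n - 1, by omega⟩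
          refine ⟨Zn_anti (show N ≤ n' by omega) (mem_Zn.2 ⟨M / 4, ?_, Seg_sub hM hp.1⟩), ?_⟩
          · have := hM.2.1
            rw [pow_succ] at this
            omega
          · have : p.2 = ty M := hp.2
            rw [this]
            exact ty_mem M
        · right
          exact mem_biUnion (mem_Iic.2 hN) (mem_biUnion hM hp)
    · intro h
      by_cases hb : p ∈ ⋃ n, ⋃ M ∈ {M | good n M}, bridge n M
      · exact Or.inr hb
      · left
        have key : ∀ N, p ∈ Zn N ×ˢ Icc (0 : ℝ) 1 := by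
          intro N
          rcases mem_iInter.1 h N with h1 | h1
          · exact h1
          · exfalso
            apply hb
            simp only [mem_iUnion, exists_prop] at h1 ⊢
            obtain ⟨n, _, M, hM, hp⟩ := h1
            exact ⟨n, M, hM, hp⟩
        exact ⟨mem_iInter.2 fun N => (key N).1, (key 0).2⟩
  rw [this]
  refine isClosed_iInter fun N => IsClosed.union ((Zn_closed N).prod isClosed_Icc) ?_
  refine (finite_Iic N).isClosed_biUnion fun n _ => ?_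
  have hfin : ({M | good n M}).Finite := (finite_Iio (4 ^ n)).subset fun M hM => hM.2.1
  refine hfin.isClosed_biUnion fun M _ => ?_
  exact (Seg_compact n M).isClosed.prod isClosed_singleton

theorem box_zero : Zn 0 = Icc 0 1 ×ˢ Icc 0 1 := by
  ext v
  rw [mem_Zn]
  constructor
  · rintro ⟨m, hm, hv⟩
    have : m = 0 := by simpa using hm
    subst this
    simpa [box, X, Y] using hv
  · intro hv
    exact ⟨0, by norm_num, by simpa [box, X, Y] using hv⟩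

theorem K3_sub : K3 ⊆ Zn 0 ×ˢ Icc (0 : ℝ) 1 := by
  rintro p (h | h)
  · exact ⟨mem_iInter.1 h.1 0, h.2⟩
  · simp only [mem_iUnion, exists_prop] at h
    obtain ⟨n, M, hM, hp⟩ := h
    obtain ⟨n', rfl⟩ : ∃ n', n = n' + 1 := ⟨n - 1, by have := good_pos hM; omega⟩
    refine ⟨Zn_anti (Nat.zero_le n') (mem_Zn.2 ⟨M / 4, ?_, Seg_sub hM hp.1⟩), ?_⟩
    · have := hM.2.1
      rw [pow_succ] at this
      omega
    · have : p.2 = ty M := hp.2
      rw [this]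
      exact ty_mem M

theorem K3_compact : IsCompact K3 := by
  refine IsCompact.of_isClosed_subset ?_ K3_closed K3_sub
  rw [box_zero]
  exact (isCompact_Icc.prod isCompact_Icc).prod isCompact_Icc

theorem F_surj {t : ℝ} (ht : t ∈ Icc (0 : ℝ) 1) : ∃ z ∈ Z, F z = t := by
  have key : ∀ n : ℕ, (Zn n ∩ F ⁻¹' {t}).Nonempty := by
    intro n
    have hp : (0 : ℝ) < 4 ^ n := by positivity
    obtain ⟨m, hm, h1, h2⟩ : ∃ m : ℕ, m < 4 ^ n ∧ (m : ℝ) ≤ t * 4 ^ n ∧ t * 4 ^ n ≤ m + 1 := by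
      rcases ht.2.lt_or_eq with h | h
      · refine ⟨⌊t * 4 ^ n⌋₊, ?_, Nat.floor_le (by have := ht.1; positivity),
          (Nat.lt_floor_add_one _).le⟩
        rw [Nat.floor_lt (by have := ht.1; positivity)]
        push_cast
        nlinarith
      · refine ⟨4 ^ n - 1, by have : 0 < 4 ^ n := by positivity
                              omega, ?_, ?_⟩
        · rw [h, one_mul]
          have : ((4 ^ n - 1 : ℕ) : ℝ) ≤ ((4 ^ n : ℕ) : ℝ) := by exact_mod_cast Nat.sub_le _ _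
          push_cast at this ⊢
          exact this
        · rw [h, one_mul]
          have h3 : 4 ^ n - 1 + 1 = 4 ^ n := Nat.sub_add_cancel (Nat.one_le_pow _ _ (by norm_num))
          have : (((4 ^ n - 1 : ℕ) : ℝ) + 1) = ((4 ^ n : ℕ) : ℝ) := by exact_mod_cast h3
          rw [this]
          push_cast
          exact le_rfl
    set u := t * 4 ^ n - m with hu
    refine ⟨((X m + u) / 4 ^ n, (Y m + u) / 4 ^ n), mem_Zn.2 ⟨m, hm, ⟨⟨?_, ?_⟩, ⟨?_, ?_⟩⟩⟩, ?_⟩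
    · exact div_le_div_of_nonneg_right (by linarith) hp.le
    · exact div_le_div_of_nonneg_right (by linarith) hp.le
    · exact div_le_div_of_nonneg_right (by linarith) hp.le
    · exact div_le_div_of_nonneg_right (by linarith) hp.le
    · show F _ = t
      unfold F
      have := XYr m
      simp only
      rw [hu]
      field_simp
      linarith
  obtain ⟨z, hz⟩ := IsCompact.nonempty_iInter_of_sequence_nonempty_isCompact_isClosed
    (fun n => Zn n ∩ F ⁻¹' {t}) (fun n => inter_subset_inter_left _ (Zn_succ n)) key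
    (((finite_Iio (4 ^ 0)).isCompact_biUnion fun m _ => box_compact 0 m).inter_right
      (isClosed_singleton.preimage F_cont))
    (fun n => (Zn_closed n).inter (isClosed_singleton.preimage F_cont))
  rw [mem_iInter] at hz
  exact ⟨z, mem_iInter.2 fun n => (hz n).1, (hz 0).2⟩

theorem vert_mem {z : ℝ × ℝ} (hz : z ∈ Z) {h : ℝ} (hh : h ∈ Icc (0 : ℝ) 1) : (z, h) ∈ K3 :=
  Or.inl ⟨hz, hh⟩

theorem bridge_sub {n M : ℕ} (h : good n M) : bridge n M ⊆ K3 := fun p hp =>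
  Or.inr (mem_iUnion.2 ⟨n, mem_biUnion h hp⟩)

theorem vert_pre (z : ℝ × ℝ) : IsPreconnected (({z} : Set (ℝ × ℝ)) ×ˢ Icc (0 : ℝ) 1) :=
  isPreconnected_singleton.prod isPreconnected_Icc

theorem bridge_pre (n M : ℕ) : IsPreconnected (bridge n M) :=
  (convex_segment _ _).isPreconnected.prod isPreconnected_singleton

theorem fibre_pre (t : ℝ) : IsPreconnected (K3 ∩ {p | F p.1 = t}) := by
  -- sets
  have hv : ∀ z ∈ Z, F z = t → ({z} : Set (ℝ × ℝ)) ×ˢ Icc (0 : ℝ) 1 ⊆ K3 ∩ {p | F p.1 = t} := by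
    rintro z hz hzt ⟨w, h⟩ ⟨hw, hh⟩
    rw [mem_singleton_iff] at hw
    simp only at hw hh
    subst hw
    exact ⟨vert_mem hz hh, hzt⟩
  have hb : ∀ n M, good n M → (M : ℝ) / 4 ^ n = t → bridge n M ⊆ K3 ∩ {p | F p.1 = t} := by
    intro n M hg hM p hp
    exact ⟨bridge_sub hg hp, by
      show F p.1 = t
      rw [F_Seg hg.1 hp.1, hM]⟩
  have hbz : ∀ n M, good n M → (M : ℝ) / 4 ^ n = t →
      ∃ S ⊆ K3 ∩ {p | F p.1 = t}, IsPreconnected S ∧ bridge n M ⊆ S ∧ (ptp n M, (0 : ℝ)) ∈ S ∧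
        (ptm n M, (0 : ℝ)) ∈ S := by
    intro n M hg hM
    have hp : ptp n M ∈ Z := ptp_mem hg.2.1
    have hm : ptm n M ∈ Z := ptm_mem hg.1 hg.2.1.le
    refine ⟨({ptp n M} ×ˢ Icc (0 : ℝ) 1 ∪ bridge n M) ∪ {ptm n M} ×ˢ Icc (0 : ℝ) 1, ?_, ?_, ?_, ?_, ?_⟩
    · exact union_subset (union_subset (hv _ hp (by rw [F_ptp, hM])) (hb n M hg hM))
        (hv _ hm (by rw [F_ptm hg.1, hM]))
    · refine IsPreconnected.union (ptm n M, ty M) (Or.inr ⟨right_mem_segment ℝ _ _, rfl⟩)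
        ⟨rfl, ty_mem M⟩ ?_ (vert_pre _)
      exact IsPreconnected.union (ptp n M, ty M) ⟨rfl, ty_mem M⟩ ⟨left_mem_segment ℝ _ _, rfl⟩
        (vert_pre _) (bridge_pre n M)
    · exact fun p hp => Or.inl (Or.inr hp)
    · exact Or.inl (Or.inl ⟨rfl, ⟨le_rfl, zero_le_one⟩⟩)
    · exact Or.inr ⟨rfl, ⟨le_rfl, zero_le_one⟩⟩
  rcases (K3 ∩ {p | F p.1 = t}).eq_empty_or_nonempty with he | ⟨p₀, hp₀⟩
  · rw [he]; exact isPreconnected_empty
  have hpt : ∀ p ∈ K3 ∩ {p | F p.1 = t}, ∃ z ∈ Z, F z = t ∧ ∃ S ⊆ K3 ∩ {p | F p.1 = t},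
      IsPreconnected S ∧ p ∈ S ∧ (z, (0 : ℝ)) ∈ S := by
    rintro ⟨v, h⟩ ⟨hK, hF⟩
    rcases hK with hK | hK
    · exact ⟨v, hK.1, hF, _, hv v hK.1 hF, vert_pre v, ⟨rfl, hK.2⟩, ⟨rfl, ⟨le_rfl, zero_le_one⟩⟩⟩
    · simp only [mem_iUnion, exists_prop] at hK
      obtain ⟨n, M, hM, hp⟩ := hK
      have hFM : (M : ℝ) / 4 ^ n = t := by
        rw [← F_Seg hM.1 hp.1]
        exact hF
      obtain ⟨S, hS, hSp, h1, h2, -⟩ := hbz n M hM hFM
      exact ⟨ptp n M, ptp_mem hM.2.1, by rw [F_ptp, hFM], S, hS, hSp, h1 hp, h2⟩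
  obtain ⟨z₀, hz₀, hFz₀, S₀, hS₀, hSp₀, hpS₀, hzS₀⟩ := hpt p₀ hp₀
  apply isPreconnected_of_forall (z₀, (0 : ℝ))
  intro p hp
  obtain ⟨z, hz, hFz, S, hS, hSp, hpS, hzS⟩ := hpt p hp
  by_cases hzz : z = z₀
  · subst hzz
    exact ⟨S, hS, hzS, hpS, hSp⟩
  · obtain ⟨n, M, h1, h2, h3, h4⟩ := gap_of hz hz₀ (by rw [hFz, hFz₀]) hzz
    have hg : good n M := ⟨h1, h2, h3⟩
    have hFM : (M : ℝ) / 4 ^ n = t := by
      rcases h4 with ⟨h5, -⟩ | ⟨h5, -⟩
      · rw [← F_ptp, ← h5, hFz]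
      · rw [← F_ptm h1, ← h5, hFz]
    obtain ⟨T, hT, hTp, -, h6, h7⟩ := hbz n M hg hFM
    have hzT : (z, (0 : ℝ)) ∈ T := by
      rcases h4 with ⟨h5, -⟩ | ⟨h5, -⟩
      · rw [h5]; exact h6
      · rw [h5]; exact h7
    have hz₀T : (z₀, (0 : ℝ)) ∈ T := by
      rcases h4 with ⟨-, h5⟩ | ⟨-, h5⟩
      · rw [h5]; exact h7
      · rw [h5]; exact h6
    exact ⟨S ∪ T, union_subset hS hT, Or.inr hz₀T, Or.inl hpS,
      IsPreconnected.union (z, (0 : ℝ)) hzS hzT hSp hTp⟩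

theorem K3_connected : IsConnected K3 := by
  refine ⟨⟨(ptp 0 0, 0), vert_mem (ptp_mem (by norm_num)) ⟨le_rfl, zero_le_one⟩⟩, ?_⟩
  rw [isPreconnected_closed_iff]
  intro u v hu hv huv hKu hKv
  have hG : Continuous fun p : (ℝ × ℝ) × ℝ => F p.1 := F_cont.comp continuous_fst
  have hcov : Icc (0 : ℝ) 1 ⊆ (fun p : (ℝ × ℝ) × ℝ => F p.1) '' (K3 ∩ u) ∪
      (fun p : (ℝ × ℝ) × ℝ => F p.1) '' (K3 ∩ v) := by
    intro t ht
    obtain ⟨z, hz, hzt⟩ := F_surj ht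
    have hK : (z, (0 : ℝ)) ∈ K3 := vert_mem hz ⟨le_rfl, zero_le_one⟩
    rcases huv hK with h | h
    · exact Or.inl ⟨_, ⟨hK, h⟩, hzt⟩
    · exact Or.inr ⟨_, ⟨hK, h⟩, hzt⟩
  have hFI : ∀ p ∈ K3, F p.1 ∈ Icc (0 : ℝ) 1 := by
    intro p hp
    have := (K3_sub hp).1
    obtain ⟨m, hm, hpm⟩ := mem_Zn.1 this
    have h0 : m = 0 := by simpa using hm
    subst h0
    have := F_box hpm
    simpa using this
  have hc := isPreconnected_closed_iff.1 (isPreconnected_Icc (a := (0 : ℝ)) (b := 1)) _ _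
    ((K3_compact.inter_right hu).image hG).isClosed ((K3_compact.inter_right hv).image hG).isClosed
    hcov (by
      obtain ⟨p, hp⟩ := hKu
      exact ⟨_, hFI p hp.1, ⟨p, hp, rfl⟩⟩) (by
      obtain ⟨p, hp⟩ := hKv
      exact ⟨_, hFI p hp.1, ⟨p, hp, rfl⟩⟩)
  obtain ⟨t, _, ⟨p, ⟨hpK, hpu⟩, hpt⟩, ⟨q, ⟨hqK, hqv⟩, hqt⟩⟩ := hc
  obtain ⟨r, hr, hruv⟩ := isPreconnected_closed_iff.1 (fibre_pre t) u v hu hv
    (inter_subset_left.trans huv) ⟨p, ⟨hpK, hpt⟩, hpu⟩ ⟨q, ⟨hqK, hqt⟩, hqv⟩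
  exact ⟨r, hr.1, hruv⟩

end Q172.Exc
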