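import Mathlib
import Pool.Agent.Q172.Exc.Cantor

set_option autoImplicit false

open Set Topology

noncomputable section

namespace Q172.Exc

theorem pow_uniq {a b i l : ℕ} (ha : a % 4 ≠ 0) (hb : b % 4 ≠ 0) (h : a * 4 ^ i = b * 4 ^ l) :
    i = l ∧ a = b := by
  have key : ∀ a b i l : ℕ, a % 4 ≠ 0 → a * 4 ^ i = b * 4 ^ l → ¬ i < l := by
    intro a b i l ha h hil
    obtain ⟨c, rfl⟩ : ∃ c, l = i + (c + 1) := ⟨l - i - 1, by omega⟩
    rw [pow_add, ← mul_assoc, mul_right_comm] at h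
    have h1 := Nat.eq_of_mul_eq_mul_right (by positivity) h
    apply ha
    rw [h1, pow_succ, ← mul_assoc]
    exact Nat.mul_mod_left _ _
  have h1 : i = l := by
    rcases lt_trichotomy i l with h1 | h1 | h1
    · exact absurd h1 (key a b i l ha h)
    · exact h1
    · exact absurd h1 (key b a l i hb h.symm)
  subst h1
  exact ⟨rfl, Nat.eq_of_mul_eq_mul_right (by positivity) h⟩

/-- the two kinds of zones -/
def zone (e : Bool) (h : ℝ) : Prop := if e then h ≠ 0 else h ≠ 1

/-- the gap used in a zone -/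
def gapM (e : Bool) (j : ℕ) : ℕ := if e then 16 * j + 4 else 16 * j + 8

theorem loc_Z {n M : ℕ} (hM : 1 ≤ M) {v : ℝ × ℝ} (hv : v ∈ Z) (h : |F v * 4 ^ n - M| ≤ 1 / 2) :
    v ∈ box n (M - 1) ∨ v ∈ box n M := by
  obtain ⟨m, hm, hvm⟩ := mem_Zn.1 (mem_iInter.1 hv n)
  obtain ⟨h1, h2⟩ := F_box hvm
  rw [abs_le] at h
  have h3 : (m : ℝ) < M + 1 := by linarith
  have h4 : (M : ℝ) < m + 2 := by linarith
  have h3' : m < M + 1 := by exact_mod_cast h3
  have h4' : M < m + 2 := by exact_mod_cast h4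
  have h5 : m = M - 1 ∨ m = M := by omega
  rcases h5 with h5 | h5
  · left; rwa [← h5]
  · right; rwa [← h5]

theorem gap_ne {e : Bool} {k j n' M' : ℕ} (hM : M' % 4 ≠ 0) (hz : zone e (ty M')) :
    (M' : ℝ) / 4 ^ n' * 4 ^ (k + 2) ≠ gapM e j := by
  intro h
  have hp : (0 : ℝ) < 4 ^ n' := by positivity
  have h1 : (M' : ℝ) * 4 ^ (k + 2) = gapM e j * 4 ^ n' := by
    field_simp at h
    linarith
  have h2 : M' * 4 ^ (k + 2) = gapM e j * 4 ^ n' := by exact_mod_cast h1
  cases e with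
  | false =>
    have h3 : gapM false j = (4 * j + 2) * 4 := by
      simp only [gapM]
      simp
      omega
    rw [h3, pow_succ, ← mul_assoc] at h2
    have h4 : M' * 4 ^ (k + 1) = (4 * j + 2) * 4 ^ n' := by
      have : M' * 4 ^ (k + 1) * 4 = (4 * j + 2) * 4 ^ n' * 4 := by
        rw [h2]; ring
      exact Nat.eq_of_mul_eq_mul_right (by norm_num) this
    obtain ⟨-, h5⟩ := pow_uniq hM (by omega) h4
    have h6 : ty M' ≠ 1 := by simpa [zone] using hz
    apply h6
    unfold ty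
    rw [if_pos]
    omega
  | true =>
    have h3 : gapM true j = (4 * j + 1) * 4 := by
      simp only [gapM]
      simp
      omega
    rw [h3, pow_succ, ← mul_assoc] at h2
    have h4 : M' * 4 ^ (k + 1) = (4 * j + 1) * 4 ^ n' := by
      have : M' * 4 ^ (k + 1) * 4 = (4 * j + 1) * 4 ^ n' * 4 := by
        rw [h2]; ring
      exact Nat.eq_of_mul_eq_mul_right (by norm_num) this
    obtain ⟨-, h5⟩ := pow_uniq hM (by omega) h4
    have h6 : ty M' ≠ 0 := by simpa [zone] using hz
    apply h6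
    unfold ty
    rw [if_neg]
    omega

theorem localize {e : Bool} {k j : ℕ} {v : ℝ × ℝ} {h : ℝ} (hK : (v, h) ∈ K3) (hz : zone e h)
    (hF : |F v * 4 ^ (k + 2) - gapM e j| ≤ 1 / 2) :
    v ∈ box (k + 2) (gapM e j - 1) ∨ v ∈ box (k + 2) (gapM e j) := by
  have hM1 : 1 ≤ gapM e j := by unfold gapM; split_ifs <;> omega
  rcases hK with hK | hK
  · exact loc_Z hM1 hK.1 hF
  · simp only [mem_iUnion, exists_prop] at hK
    obtain ⟨n', M', hg, hp⟩ := hK
    obtain ⟨hv, hh⟩ := hp
    have hh' : h = ty M' := hh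
    have hv' : v ∈ Seg n' M' := hv
    subst hh'
    have hFv : F v = M' / 4 ^ n' := F_Seg hg.1 hv'
    have hne := gap_ne (e := e) (k := k) (j := j) (n' := n') hg.2.2 hz
    have h1 := loc_Z (n := k + 2) hM1 (ptp_mem hg.2.1) (by rw [F_ptp, ← hFv]; exact hF)
    have h2 := loc_Z (n := k + 2) hM1 (ptm_mem hg.1 hg.2.1.le) (by rw [F_ptm hg.1, ← hFv]; exact hF)
    rcases lt_or_gt_of_ne hne with hlt | hgt
    · left
      have hnot : ∀ w : ℝ × ℝ, F w = M' / 4 ^ n' → w ∉ box (k + 2) (gapM e j) := by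
        intro w hw hwb
        have := (F_box hwb).1
        rw [hw] at this
        linarith
      exact (box_convex _ _).segment_subset (h1.resolve_right (hnot _ (F_ptp _ _)))
        (h2.resolve_right (hnot _ (F_ptm hg.1))) hv'
    · right
      have hnot : ∀ w : ℝ × ℝ, F w = M' / 4 ^ n' → w ∉ box (k + 2) (gapM e j - 1) := by
        intro w hw hwb
        have := (F_box hwb).2
        rw [hw, Nat.cast_sub hM1] at this
        push_cast at this
        linarith
      exact (box_convex _ _).segment_subset (h1.resolve_left (hnot _ (F_ptp _ _)))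
        (h2.resolve_left (hnot _ (F_ptm hg.1))) hv'

theorem box_dist {e : Bool} {k j : ℕ} {v v' : ℝ × ℝ} (hv : v ∈ box (k + 2) (gapM e j - 1))
    (hv' : v' ∈ box (k + 2) (gapM e j)) : 1 / 2 / 4 ^ (k + 2) ≤ |v.1 - v'.1| := by
  have hp : (0 : ℝ) < 4 ^ (k + 2) := by positivity
  obtain ⟨⟨a1, a2⟩, -⟩ := hv
  obtain ⟨⟨b1, b2⟩, -⟩ := hv'
  rw [div_le_iff₀ hp] at a1 b1
  rw [le_div_iff₀ hp] at a2 b2
  rw [div_le_iff₀ hp]
  cases e with
  | false =>
    have e1 : X (gapM false j - 1) = 16 * X j + 15 := by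
      have : gapM false j - 1 = 4 * (4 * j + 1) + 3 := by
        simp only [gapM]
        simp
        omega
      rw [this, X_add _ 3 (by norm_num), X_add _ 1 (by norm_num)]
      omega
    have e2 : X (gapM false j) = 16 * X j := by
      have : gapM false j = 4 * (4 * j + 2) + 0 := by
        simp only [gapM]
        simp
        omega
      rw [this, X_add _ 0 (by norm_num), X_add _ 2 (by norm_num)]
      omega
    rw [e1] at a1
    rw [e2] at b2
    push_cast at a1 b2
    have h1 := le_abs_self (v.1 - v'.1)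
    nlinarith
  | true =>
    have e1 : X (gapM true j - 1) = 16 * X j + 3 := by
      have : gapM true j - 1 = 4 * (4 * j + 0) + 3 := by
        simp only [gapM]
        simp
        omega
      rw [this, X_add _ 3 (by norm_num), X_add _ 0 (by norm_num)]
      omega
    have e2 : X (gapM true j) = 16 * X j + 12 := by
      have : gapM true j = 4 * (4 * j + 1) + 0 := by
        simp only [gapM]
        simp
        omega
      rw [this, X_add _ 0 (by norm_num), X_add _ 1 (by norm_num)]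
      omega
    rw [e1] at a2
    rw [e2] at b1
    push_cast at a2 b1
    have h1 := neg_abs_le (v.1 - v'.1)
    nlinarith

theorem F_lip (v v' : ℝ × ℝ) : F v' - F v ≤ max |v.1 - v'.1| |v.2 - v'.2| := by
  have h1 := neg_abs_le (v.1 - v'.1)
  have h2 := neg_abs_le (v.2 - v'.2)
  have h3 := le_max_left |v.1 - v'.1| |v.2 - v'.2|
  have h4 := le_max_right |v.1 - v'.1| |v.2 - v'.2|
  unfold F
  linarith

/-- The cost of crossing a strip. -/
theorem crossing {c : unitInterval → ℝ × ℝ} {H : unitInterval → ℝ} (hc : Continuous c)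
    (hH : Continuous H) {e : Bool} {k j : ℕ} {a b : unitInterval} (hab : a ≤ b)
    (ha : F (c a) ≤ j / 4 ^ k) (hb : ((j : ℝ) + 1) / 4 ^ k ≤ F (c b))
    (hz : ∀ s ∈ Icc a b, zone e (H s)) :
    ∃ s' s'' : unitInterval, a ≤ s' ∧ s' < s'' ∧ s'' ≤ b ∧ (∀ s ∈ Ioo s' s'', (c s, H s) ∉ K3) ∧
      1 / 2 / 4 ^ (k + 2) ≤ max |(c s').1 - (c s'').1| |(c s').2 - (c s'').2| := by
  have hp : (0 : ℝ) < 4 ^ (k + 2) := by positivity
  have hpk : (0 : ℝ) < 4 ^ k := by positivity
  have hM1 : 1 ≤ gapM e j := by unfold gapM; split_ifs <;> omega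
  have hMb : (16 * (j : ℝ) + 1 ≤ gapM e j) ∧ ((gapM e j : ℝ) ≤ 16 * j + 15) := by
    have h1 : 16 * j + 1 ≤ gapM e j := by unfold gapM; split_ifs <;> omega
    have h2 : gapM e j ≤ 16 * j + 15 := by unfold gapM; split_ifs <;> omega
    exact ⟨by exact_mod_cast h1, by exact_mod_cast h2⟩
  set M := gapM e j with hMdef
  set f : unitInterval → ℝ := fun s => F (c s) * 4 ^ (k + 2) with hf
  have hfc : Continuous f := (F_cont.comp hc).mul continuous_const
  have hfa : f a ≤ M - 1 / 2 := by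
    rw [le_div_iff₀ hpk] at ha
    show F (c a) * 4 ^ (k + 2) ≤ _
    rw [pow_add]
    nlinarith [hMb.1]
  have hfb : (M : ℝ) + 1 / 2 ≤ f b := by
    rw [div_le_iff₀ hpk] at hb
    show _ ≤ F (c b) * 4 ^ (k + 2)
    rw [pow_add]
    nlinarith [hMb.2]
  -- first time above
  obtain ⟨s2, ⟨hs2, hs2f⟩, hs2min⟩ := ((isClosed_Icc (a := a) (b := b)).inter
    (isClosed_Ici.preimage hfc) : IsClosed (Icc a b ∩ f ⁻¹' Ici ((M : ℝ) + 1 / 2))).isCompact.exists_isLeast
    ⟨b, ⟨hab, le_rfl⟩, hfb⟩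
  have hs2f' : (M : ℝ) + 1 / 2 ≤ f s2 := hs2f
  obtain ⟨s1, ⟨hs1, hs1f⟩, hs1max⟩ := ((isClosed_Icc (a := a) (b := s2)).inter
    (isClosed_Iic.preimage hfc) : IsClosed (Icc a s2 ∩ f ⁻¹' Iic ((M : ℝ) - 1 / 2))).isCompact.exists_isGreatest
    ⟨a, ⟨le_rfl, hs2.1⟩, hfa⟩
  have hs1f' : f s1 ≤ (M : ℝ) - 1 / 2 := hs1f
  have hmid : ∀ s, s1 < s → s < s2 → |F (c s) * 4 ^ (k + 2) - M| ≤ 1 / 2 := by
    intro s h1 h2
    have e1 : f s ≤ (M : ℝ) + 1 / 2 := by
      by_contra hcon
      push Not at hcon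
      have := hs2min ⟨⟨hs1.1.trans h1.le, h2.le.trans hs2.2⟩, hcon.le⟩
      exact absurd this (not_le.2 h2)
    have e2 : (M : ℝ) - 1 / 2 ≤ f s := by
      by_contra hcon
      push Not at hcon
      have := hs1max ⟨⟨hs1.1.trans h1.le, h2.le⟩, hcon.le⟩
      exact absurd this (not_le.2 h1)
    rw [abs_le]
    constructor
    · have : f s = F (c s) * 4 ^ (k + 2) := rfl
      linarith
    · have : f s = F (c s) * 4 ^ (k + 2) := rfl
      linarith
  have hcH : Continuous fun s => (c s, H s) := hc.prodMk hH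
  -- last visit to the first box
  obtain ⟨s', hs'mem, hs'max⟩ := (((isClosed_Icc (a := s1) (b := s2)).inter
    ((K3_closed.preimage hcH).inter ((box_compact (k + 2) (M - 1)).isClosed.preimage hc))).union
    (isClosed_singleton (x := s1)) : IsClosed ((Icc s1 s2 ∩ ((fun s => (c s, H s)) ⁻¹' K3 ∩
      c ⁻¹' box (k + 2) (M - 1))) ∪ {s1})).isCompact.exists_isGreatest ⟨s1, Or.inr rfl⟩
  have hs's1 : s1 ≤ s' := hs'max (Or.inr rfl)
  have hs's2 : s' ≤ s2 := by
    rcases hs'mem with h | h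
    · exact h.1.2
    · rw [mem_singleton_iff] at h
      rw [h]; exact hs1.2
  obtain ⟨s'', hs''mem, hs''min⟩ := (((isClosed_Icc (a := s') (b := s2)).inter
    ((K3_closed.preimage hcH).inter ((box_compact (k + 2) M).isClosed.preimage hc))).union
    (isClosed_singleton (x := s2)) : IsClosed ((Icc s' s2 ∩ ((fun s => (c s, H s)) ⁻¹' K3 ∩
      c ⁻¹' box (k + 2) M)) ∪ {s2})).isCompact.exists_isLeast ⟨s2, Or.inr rfl⟩
  have hs''s2 : s'' ≤ s2 := hs''min (Or.inr rfl)
  have hs's'' : s' ≤ s'' := by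
    rcases hs''mem with h | h
    · exact h.1.1
    · rw [mem_singleton_iff] at h
      rw [h]; exact hs's2
  have hdist : 1 / 2 / 4 ^ (k + 2) ≤ max |(c s').1 - (c s'').1| |(c s').2 - (c s'').2| := by
    have hF : ∀ r : ℝ, 1 / 2 ≤ r → f s'' - f s' = r → 1 / 2 / 4 ^ (k + 2) ≤
        max |(c s').1 - (c s'').1| |(c s').2 - (c s'').2| := by
      intro r hr h
      refine le_trans ?_ (F_lip (c s') (c s''))
      rw [div_le_iff₀ hp, sub_mul]
      have h' : F (c s'') * 4 ^ (k + 2) - F (c s') * 4 ^ (k + 2) = r := h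
      rw [h']
      exact hr
    rcases hs'mem with h' | h'
    · have hb' : c s' ∈ box (k + 2) (M - 1) := h'.2.2
      have hf' : f s' ≤ M := by
        have := (F_box hb').2
        rw [Nat.cast_sub hM1] at this
        push_cast at this
        show F (c s') * 4 ^ (k + 2) ≤ _
        linarith
      rcases hs''mem with h'' | h''
      · exact (box_dist hb' h''.2.2).trans (le_max_left _ _)
      · rw [mem_singleton_iff] at h''
        exact hF _ (by rw [h'']; linarith) rfl
    · rw [mem_singleton_iff] at h'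
      rcases hs''mem with h'' | h''
      · have hb'' : c s'' ∈ box (k + 2) M := h''.2.2
        have hf'' : (M : ℝ) ≤ f s'' := (F_box hb'').1
        exact hF _ (by rw [h']; linarith) rfl
      · rw [mem_singleton_iff] at h''
        exact hF _ (by rw [h', h'']; linarith) rfl
  refine ⟨s', s'', hs1.1.trans hs's1, ?_, hs''s2.trans hs2.2, ?_, hdist⟩
  · refine lt_of_le_of_ne hs's'' ?_
    intro h
    rw [h] at hdist
    simp only [sub_self, abs_zero, max_self] at hdist
    have : (0 : ℝ) < 1 / 2 / 4 ^ (k + 2) := by positivity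
    linarith
  · rintro s ⟨h1, h2⟩ hK
    have hm := hmid s (hs's1.trans_lt h1) (h2.trans_le hs''s2)
    have hsab : s ∈ Icc a b :=
      ⟨hs1.1.trans (hs's1.trans h1.le), h2.le.trans (hs''s2.trans hs2.2)⟩
    rcases localize hK (hz s hsab) hm with h | h
    · have := hs'max (Or.inl ⟨⟨hs's1.trans h1.le, h2.le.trans hs''s2⟩, hK, h⟩)
      exact absurd this (not_le.2 h1)
    · have := hs''min (Or.inl ⟨⟨h1.le, h2.le.trans hs''s2⟩, hK, h⟩)
      exact absurd this (not_le.2 h2)

end Q172.Exc
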