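import Mathlib
import Pool.Agent.Q172.Exc.Cross

set_option autoImplicit false

open Set Topology Filter

noncomputable section

namespace Q172.Exc

/-- The length that `γ` spends outside `K`: the sum, over the connected components `J` of the open
set of parameters `t` with `γ t ∉ K`, of the length (variation) of `γ` restricted to `J`. -/
def lengthOutside {E : Type} [PseudoEMetricSpace E] (γ : unitInterval → E) (K : Set E) : ENNReal :=
  ∑' J : {J : Set unitInterval // ∃ t ∈ γ ⁻¹' Kᶜ, J = connectedComponentIn (γ ⁻¹' Kᶜ) t},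
    eVariationOn γ J.1

variable {E : Type} [PseudoMetricSpace E]

theorem var_Ioo {γ : unitInterval → E} (hγ : Continuous γ) {a b : unitInterval} (hab : a < b) :
    edist (γ a) (γ b) ≤ eVariationOn γ (Ioo a b) := by
  have h1 : (𝓝[>] a).NeBot := nhdsGT_neBot_of_exists_gt ⟨b, hab⟩
  have h2 : (𝓝[<] b).NeBot := nhdsLT_neBot_of_exists_lt ⟨a, hab⟩
  have ht : Tendsto (fun p : unitInterval × unitInterval => edist (γ p.1) (γ p.2))
      (𝓝[>] a ×ˢ 𝓝[<] b) (𝓝 (edist (γ a) (γ b))) := by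
    apply Tendsto.edist
    · exact ((hγ.tendsto a).mono_left nhdsWithin_le_nhds).comp tendsto_fst
    · exact ((hγ.tendsto b).mono_left nhdsWithin_le_nhds).comp tendsto_snd
  refine le_of_tendsto ht ?_
  have e1 : ∀ᶠ x in 𝓝[>] a, x ∈ Ioo a b := Ioo_mem_nhdsGT hab
  have e2 : ∀ᶠ x in 𝓝[<] b, x ∈ Ioo a b := Ioo_mem_nhdsLT hab
  filter_upwards [e1.prod_mk e2] with p hp
  exact eVariationOn.edist_le γ hp.1 hp.2

theorem superadd (γ : unitInterval → E) (l r : ℕ → unitInterval) (G : Finset ℕ) :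
    ∀ J : Set unitInterval, (∀ i ∈ G, ∀ j ∈ G, i < j → r i ≤ l j) →
      (∀ i ∈ G, Ioo (l i) (r i) ⊆ J) →
      ∑ i ∈ G, eVariationOn γ (Ioo (l i) (r i)) ≤ eVariationOn γ J := by
  induction G using Finset.induction_on_max with
  | empty => intro J _ _; simp
  | insert a G hmax ih =>
    intro J hord hsub
    have haG : a ∉ G := fun h => lt_irrefl a (hmax a h)
    rw [Finset.sum_insert haG, add_comm]
    have h1 := ih (J ∩ Iic (l a)) (fun i hi j hj => hord i (Finset.mem_insert_of_mem hi) j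
      (Finset.mem_insert_of_mem hj)) (by
        intro i hi x hx
        refine ⟨hsub i (Finset.mem_insert_of_mem hi) hx, ?_⟩
        exact hx.2.le.trans (hord i (Finset.mem_insert_of_mem hi) a (Finset.mem_insert_self _ _)
          (hmax i hi)))
    have h2 : eVariationOn γ (Ioo (l a) (r a)) ≤ eVariationOn γ (J ∩ Ici (l a)) :=
      eVariationOn.mono γ (fun x hx => ⟨hsub a (Finset.mem_insert_self _ _) hx, hx.1.le⟩)
    refine (add_le_add h1 h2).trans ?_
    refine (eVariationOn.add_le_union γ ?_).trans (eVariationOn.mono γ ?_)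
    · rintro x ⟨-, hx⟩ y ⟨-, hy⟩
      exact le_trans hx hy
    · exact union_subset inter_subset_left inter_subset_left

theorem sum_le_lengthOutside {γ : unitInterval → E} {K : Set E} (l r : ℕ → unitInterval)
    (G : Finset ℕ) (hlr : ∀ i ∈ G, l i < r i) (hord : ∀ i ∈ G, ∀ j ∈ G, i < j → r i ≤ l j)
    (hU : ∀ i ∈ G, Ioo (l i) (r i) ⊆ γ ⁻¹' Kᶜ) :
    ∑ i ∈ G, eVariationOn γ (Ioo (l i) (r i)) ≤ lengthOutside γ K := by
  classical
  have hmid : ∀ i ∈ G, ∃ x, x ∈ Ioo (l i) (r i) := fun i hi => exists_between (hlr i hi)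
  -- the component of an index
  let C : ℕ → {J : Set unitInterval // ∃ t ∈ γ ⁻¹' Kᶜ, J = connectedComponentIn (γ ⁻¹' Kᶜ) t} →
    Prop := fun i J => Ioo (l i) (r i) ⊆ J.1
  have hC : ∀ i ∈ G, ∃ J, C i J := by
    intro i hi
    obtain ⟨x, hx⟩ := hmid i hi
    exact ⟨⟨connectedComponentIn (γ ⁻¹' Kᶜ) x, x, hU i hi hx, rfl⟩,
      isPreconnected_Ioo.subset_connectedComponentIn hx (hU i hi)⟩
  rcases G.eq_empty_or_nonempty with hG | ⟨i0, hi0⟩
  · rw [hG]; simp
  obtain ⟨J0, -⟩ := hC i0 hi0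
  have hC' : ∀ i, ∃ J, i ∈ G → C i J := by
    intro i
    by_cases hi : i ∈ G
    · obtain ⟨J, hJ⟩ := hC i hi
      exact ⟨J, fun _ => hJ⟩
    · exact ⟨J0, fun h => absurd h hi⟩
  choose c hc using hC'
  have hsum : ∑ i ∈ G, eVariationOn γ (Ioo (l i) (r i)) =
      ∑ J ∈ G.image c, ∑ i ∈ G with c i = J, eVariationOn γ (Ioo (l i) (r i)) :=
    (Finset.sum_fiberwise_of_maps_to (fun i hi => Finset.mem_image_of_mem c hi) _).symm
  rw [hsum]
  refine le_trans ?_ (ENNReal.sum_le_tsum (G.image c))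
  apply Finset.sum_le_sum
  intro J _
  apply superadd
  · intro i hi j hj hij
    exact hord i (Finset.mem_filter.1 hi).1 j (Finset.mem_filter.1 hj).1 hij
  · intro i hi
    have h1 := Finset.mem_filter.1 hi
    have h2 := hc i h1.1
    rw [h1.2] at h2
    exact h2

theorem first_last {f : unitInterval → ℝ} (hf : Continuous f) (h0 : f 0 = 0) (h1 : f 1 = 1)
    (N : ℕ) (hN : 0 < N) : ∃ T1 T2 : ℕ → unitInterval,
      (∀ j < N, T1 j ≤ T2 j ∧ f (T1 j) ≤ (j : ℝ) / N ∧ ((j : ℝ) + 1) / N ≤ f (T2 j)) ∧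
      (∀ j, j + 1 < N → T2 j ≤ T1 (j + 1)) := by
  have hNr : (0 : ℝ) < N := by exact_mod_cast hN
  have hex : ∀ j : ℕ, ∃ T : unitInterval, j < N → ((j : ℝ) + 1) / N ≤ f T ∧
      ∀ s, ((j : ℝ) + 1) / N ≤ f s → T ≤ s := by
    intro j
    by_cases hj : j < N
    · have hj1 : ((j : ℝ) + 1) / N ≤ 1 := by
        rw [div_le_one hNr]; exact_mod_cast hj
      obtain ⟨T, hT, hmin⟩ := (isClosed_Ici.preimage hf :
        IsClosed (f ⁻¹' Ici (((j : ℝ) + 1) / N))).isCompact.exists_isLeast ⟨1, by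
          rw [mem_preimage, h1]; exact hj1⟩
      exact ⟨T, fun _ => ⟨hT, fun s hs => hmin hs⟩⟩
    · exact ⟨0, fun h => absurd h hj⟩
  choose T2 hT2 using hex
  have hex1 : ∀ j : ℕ, ∃ T : unitInterval, j < N → f T ≤ (j : ℝ) / N ∧ T ≤ T2 j ∧
      ∀ s, s ≤ T2 j → f s ≤ (j : ℝ) / N → s ≤ T := by
    intro j
    by_cases hj : j < N
    · obtain ⟨T, ⟨hT, hTf⟩, hmax⟩ := ((isClosed_Iic (a := T2 j)).inter (isClosed_Iic.preimage hf) :
        IsClosed (Iic (T2 j) ∩ f ⁻¹' Iic ((j : ℝ) / N))).isCompact.exists_isGreatest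
          ⟨0, unitInterval.nonneg', by rw [mem_preimage, h0]; exact mem_Iic.2 (by positivity)⟩
      exact ⟨T, fun _ => ⟨hTf, hT, fun s h1 h2 => hmax ⟨h1, h2⟩⟩⟩
    · exact ⟨0, fun h => absurd h hj⟩
  choose T1 hT1 using hex1
  refine ⟨T1, T2, fun j hj => ⟨(hT1 j hj).2.1, (hT1 j hj).1, (hT2 j hj).1⟩, ?_⟩
  intro j hj
  have hj' : j < N := by omega
  have hTj := hT2 j hj'
  have hTj1 := hT2 (j + 1) hj
  have hle : T2 j ≤ T2 (j + 1) := by
    apply hTj.2
    refine le_trans ?_ hTj1.1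
    apply div_le_div_of_nonneg_right _ hNr.le
    push_cast
    linarith
  apply (hT1 (j + 1) hj).2.2 _ hle
  -- the value at `T2 j` is exactly `(j+1)/N`
  push_cast
  by_contra hcon
  push Not at hcon
  have hivt := intermediate_value_Icc (unitInterval.nonneg' (t := T2 j)) hf.continuousOn
  obtain ⟨s, hs, hsf⟩ := hivt ⟨by rw [h0]; positivity, hcon.le⟩
  have h2 := hTj.2 s hsf.ge
  have h3 : s = T2 j := le_antisymm hs.2 h2
  rw [h3] at hsf
  linarith

/-- The main estimate. -/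
theorem main {γ : unitInterval → E} (hγ : Continuous γ) {K : Set E} {c : unitInterval → ℝ × ℝ}
    {H : unitInterval → ℝ} (hc : Continuous c) (hH : Continuous H)
    (hd1 : ∀ s t, |(c s).1 - (c t).1| ≤ dist (γ s) (γ t))
    (hd2 : ∀ s t, |(c s).2 - (c t).2| ≤ dist (γ s) (γ t))
    (hK : ∀ s, γ s ∈ K → (c s, H s) ∈ K3) (h0 : F (c 0) = 0) (h1 : F (c 1) = 1) :
    ENNReal.ofReal (1 / 64) ≤ lengthOutside γ K := by
  classical
  obtain ⟨δ, hδ, hδH⟩ := Metric.uniformContinuous_iff.1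
    (CompactSpace.uniformContinuous_of_continuous hH) 1 one_pos
  obtain ⟨k, hk⟩ : ∃ k : ℕ, 2 / δ ≤ 4 ^ k := by
    obtain ⟨k, hk⟩ := pow_unbounded_of_one_lt (2 / δ) (show (1 : ℝ) < 4 by norm_num)
    exact ⟨k, hk.le⟩
  have hpk : (0 : ℝ) < 4 ^ k := by positivity
  have hpk2 : (0 : ℝ) < 4 ^ (k + 2) := by positivity
  obtain ⟨T1, T2, hT, hord⟩ := first_last (F_cont.comp hc) h0 h1 (4 ^ k) (by positivity)
  push_cast at hT
  let G : Finset ℕ := (Finset.range (4 ^ k)).filter fun j => (T2 j : ℝ) - T1 j < δ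
  let B : Finset ℕ := (Finset.range (4 ^ k)).filter fun j => ¬ (T2 j : ℝ) - T1 j < δ
  -- few bad indices
  have hsum : ∀ m, m ≤ 4 ^ k → ∑ j ∈ Finset.range m, ((T2 j : ℝ) - T1 j) ≤
      if m = 0 then 0 else (T2 (m - 1) : ℝ) := by
    intro m
    induction m with
    | zero => intro _; simp
    | succ m ih =>
      intro hm
      have h2 := ih (by omega)
      rw [Finset.sum_range_succ, if_neg (by omega), Nat.add_sub_cancel]
      rcases Nat.eq_zero_or_pos m with h3 | h3
      · subst h3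
        simp only [if_true, Finset.range_zero, Finset.sum_empty] at h2 ⊢
        have := (T1 0).2.1
        linarith
      · rw [if_neg (by omega)] at h2
        have h4 : T2 (m - 1) ≤ T1 (m - 1 + 1) := hord (m - 1) (by omega)
        have h5 : m - 1 + 1 = m := by omega
        rw [h5] at h4
        have h6 : (T2 (m - 1) : ℝ) ≤ T1 m := h4
        linarith
  have hBcard : (B.card : ℝ) * δ ≤ 1 := by
    have h2 : (B.card : ℝ) * δ ≤ ∑ j ∈ B, ((T2 j : ℝ) - T1 j) := by
      rw [← nsmul_eq_mul]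
      apply Finset.card_nsmul_le_sum
      intro j hj
      exact not_lt.1 (Finset.mem_filter.1 hj).2
    have h3 : ∑ j ∈ B, ((T2 j : ℝ) - T1 j) ≤ ∑ j ∈ Finset.range (4 ^ k), ((T2 j : ℝ) - T1 j) := by
      apply Finset.sum_le_sum_of_subset_of_nonneg (Finset.filter_subset _ _)
      intro j hj _
      have h4 : (T1 j : ℝ) ≤ T2 j := (hT j (Finset.mem_range.1 hj)).1
      linarith
    have h4 := hsum (4 ^ k) le_rfl
    rw [if_neg (by positivity)] at h4
    have h5 := (T2 (4 ^ k - 1)).2.2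
    linarith
  have hcards : G.card + B.card = 4 ^ k := by
    have := Finset.card_filter_add_card_filter_not (s := Finset.range (4 ^ k))
      (fun j => (T2 j : ℝ) - T1 j < δ)
    rw [Finset.card_range] at this
    exact this
  have hcards' : (G.card : ℝ) + B.card = 4 ^ k := by exact_mod_cast hcards
  have hG : (4 : ℝ) ^ k / 2 ≤ G.card := by
    have h2 : (B.card : ℝ) ≤ 1 / δ := by rwa [le_div_iff₀ hδ]
    have h3 : 1 / δ ≤ 4 ^ k / 2 := by
      have : 2 / δ = 2 * (1 / δ) := by ring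
      rw [this] at hk
      linarith
    linarith
  -- crossings
  have hcross : ∀ j : ℕ, ∃ s : unitInterval × unitInterval, j ∈ G → T1 j ≤ s.1 ∧ s.1 < s.2 ∧
      s.2 ≤ T2 j ∧ (∀ t ∈ Ioo s.1 s.2, (c t, H t) ∉ K3) ∧
      1 / 2 / 4 ^ (k + 2) ≤ max |(c s.1).1 - (c s.2).1| |(c s.1).2 - (c s.2).2| := by
    intro j
    by_cases hj : j ∈ G
    · have hj1 := Finset.mem_filter.1 hj
      obtain ⟨h2, h3, h4⟩ := hT j (Finset.mem_range.1 hj1.1)
      have hzone : (∀ s ∈ Icc (T1 j) (T2 j), zone false (H s)) ∨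
          (∀ s ∈ Icc (T1 j) (T2 j), zone true (H s)) := by
        by_contra hcon
        push Not at hcon
        obtain ⟨⟨s, hs, hs1⟩, ⟨t, ht, ht1⟩⟩ := hcon
        have hs2 : H s = 1 := by
          by_contra h
          exact hs1 (by simpa [zone] using h)
        have ht2 : H t = 0 := by
          by_contra h
          exact ht1 (by simpa [zone] using h)
        have hst : dist s t < δ := by
          rw [Subtype.dist_eq, Real.dist_eq, abs_lt]
          have a1 : (T1 j : ℝ) ≤ s := hs.1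
          have a2 : (s : ℝ) ≤ T2 j := hs.2
          have a3 : (T1 j : ℝ) ≤ t := ht.1
          have a4 : (t : ℝ) ≤ T2 j := ht.2
          have a5 := hj1.2
          constructor <;> linarith
        have := hδH hst
        rw [hs2, ht2, Real.dist_eq] at this
        norm_num at this
      rcases hzone with hz | hz
      · obtain ⟨s', s'', h5⟩ := crossing hc hH (k := k) (j := j) h2 h3 h4 hz
        exact ⟨(s', s''), fun _ => h5⟩
      · obtain ⟨s', s'', h5⟩ := crossing hc hH (k := k) (j := j) h2 h3 h4 hz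
        exact ⟨(s', s''), fun _ => h5⟩
    · exact ⟨(0, 0), fun h => absurd h hj⟩
  choose S hS using hcross
  have hmono : ∀ i j : ℕ, i < j → j < 4 ^ k → T2 i ≤ T1 j := by
    intro i j hij
    induction j with
    | zero => omega
    | succ j ih =>
      intro hj
      rcases Nat.lt_or_ge i j with h | h
      · exact (ih h (by omega)).trans ((hT j (by omega)).1.trans (hord j hj))
      · have : i = j := by omega
        subst this
        exact hord i hj
  have hsum2 := sum_le_lengthOutside (γ := γ) (K := K) (fun j => (S j).1) (fun j => (S j).2) G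
    (fun i hi => (hS i hi).2.1)
    (fun i hi j hj hij => (hS i hi).2.2.1.trans ((hmono i j hij
      (Finset.mem_range.1 (Finset.mem_filter.1 hj).1)).trans (hS j hj).1))
    (fun i hi t ht hK' => (hS i hi).2.2.2.1 t ht (hK t hK'))
  refine le_trans ?_ hsum2
  have hterm : ∀ j ∈ G, ENNReal.ofReal (1 / 2 / 4 ^ (k + 2)) ≤
      eVariationOn γ (Ioo (S j).1 (S j).2) := by
    intro j hj
    have h5 := hS j hj
    refine le_trans ?_ (var_Ioo hγ h5.2.1)
    rw [edist_dist]
    apply ENNReal.ofReal_le_ofReal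
    exact h5.2.2.2.2.trans (max_le (hd1 _ _) (hd2 _ _))
  have h6 : (G.card : ENNReal) * ENNReal.ofReal (1 / 2 / 4 ^ (k + 2)) ≤
      ∑ j ∈ G, eVariationOn γ (Ioo (S j).1 (S j).2) := by
    rw [← nsmul_eq_mul]
    exact Finset.card_nsmul_le_sum _ _ _ hterm
  refine le_trans ?_ h6
  have h7 : (G.card : ENNReal) = ENNReal.ofReal (G.card : ℝ) := by
    rw [ENNReal.ofReal_natCast]
  rw [h7, ← ENNReal.ofReal_mul (by positivity)]
  apply ENNReal.ofReal_le_ofReal
  rw [pow_add]
  have h8 : (4 : ℝ) ^ k / 2 * (1 / 2 / (4 ^ k * 4 ^ 2)) = 1 / 64 := by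
    field_simp
    norm_num
  rw [← h8]
  gcongr

end Q172.Exc
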